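import Pool.Agent.Q25.PLP.Stm

set_option autoImplicit false

namespace Pool.Agent.Q154.PLPG3

open Finset Pool.Agent.Helper123.PLP Pool.Agent.Q25.PLP

theorem key {P : Type} [Fintype P] [DecidableEq P] (G : Geo P) (l : Finset P) (hl : l ∈ G.L) :
    ∑ h ∈ G.H.filter (fun h => l ⊆ h), ((h.card : ℝ) - l.card) =
      (Fintype.card P : ℝ) - l.card := by
  have h1 : (G.H.filter (fun h => l ⊆ h)).biUnion (fun h => h \ l) = univ \ l := by
    ext x
    simp only [mem_biUnion, mem_filter, mem_sdiff, mem_univ, true_and]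
    constructor
    · rintro ⟨h, -, -, hx⟩
      exact hx
    · intro hx
      obtain ⟨h, hh, hlh, hxh⟩ := G.ex_plane l hl x hx
      exact ⟨h, ⟨hh, hlh⟩, hxh, hx⟩
  have h2 : ((G.H.filter (fun h => l ⊆ h)).biUnion (fun h => h \ l)).card =
      ∑ h ∈ G.H.filter (fun h => l ⊆ h), (h \ l).card := by
    apply card_biUnion
    intro h hh h' hh' hne
    change Disjoint (h \ l) (h' \ l)
    rw [Finset.disjoint_left]
    intro x hx hx'
    rw [mem_sdiff] at hx hx'
    rw [mem_coe, mem_filter] at hh hh'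
    exact hne (G.uniq_plane l hl x hx.2 h hh.1 h' hh'.1 hh.2 hx.1 hh'.2 hx'.1)
  rw [h1] at h2
  have h3 : ((univ \ l : Finset P).card : ℝ) = (Fintype.card P : ℝ) - l.card := by
    rw [card_sdiff_of_subset (subset_univ l), card_univ, Nat.cast_sub (card_le_univ l)]
  rw [← h3, h2, Nat.cast_sum]
  refine sum_congr rfl fun h hh => ?_
  rw [mem_filter] at hh
  rw [card_sdiff_of_subset hh.2, Nat.cast_sub (card_le_card hh.2)]

theorem t_G3 : S_G3 := by
  intro P _ _ G γ
  unfold QQ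
  rw [← mul_sum]
  congr 1
  have h1 : ∀ h ∈ G.H, ∑ l ∈ inn G.L h, ((h.card : ℝ) - l.card) * ∑ x ∈ l, ∑ z ∈ l, (γ x - γ z) ^ 2
      = ∑ l ∈ G.L, if l ⊆ h then ((h.card : ℝ) - l.card) * ∑ x ∈ l, ∑ z ∈ l, (γ x - γ z) ^ 2
          else 0 := by
    intro h _
    unfold inn
    rw [sum_filter]
  rw [sum_congr rfl h1, sum_comm]
  refine sum_congr rfl fun l hl => ?_
  rw [← sum_filter, ← sum_mul, key G l hl]

end Pool.Agent.Q154.PLPG3
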