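import Pool.Agent.Q25.PLP.Stm

set_option autoImplicit false

namespace Pool.Agent.Q154.PLPVERT

open Finset Pool.Agent.Helper123.PLP Pool.Agent.Q25.PLP

theorem t_VERT (hEXP : S_EXP) : S_VERT := by
  classical
  intro P _ _ V L hLS c hc
  obtain ⟨l0, hl0⟩ := hLS.ne
  obtain ⟨p0, hp0⟩ := card_pos.1 (lt_of_lt_of_le two_pos (hLS.two_le l0 hl0))
  set T : {l // l ∈ L} → Finset P := fun l => l.1 with hT
  set d : {l // l ∈ L} → P → ℝ := fun l x => c l.1 x with hd
  have h1 : ∀ i : {l // l ∈ L}, ∑ x ∈ T i, d i x = 1 := fun i => hc.one i.1 i.2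
  have h2 : ∀ (i : {l // l ∈ L}) (x : P), x ∉ T i → d i x = 0 := fun i x hx => hc.off i.1 x hx
  have h3 := hEXP {l // l ∈ L} P T d h1 h2
  have hPP : ∑ x, ((∑ i, d i x) ^ 2 - ∑ i, (d i x) ^ 2) = PP V L c := by
    unfold PP
    symm
    have e1 : ∀ x : P, ∑ i : {l // l ∈ L}, d i x = ∑ l ∈ L, c l x := fun x =>
      Finset.sum_coe_sort L (fun l => c l x)
    have e2 : ∀ x : P, ∑ i : {l // l ∈ L}, (d i x) ^ 2 = ∑ l ∈ L, (c l x) ^ 2 := fun x =>
      Finset.sum_coe_sort L (fun l => (c l x) ^ 2)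
    simp only [e1, e2]
    refine sum_subset (subset_univ V) fun x _ hx => ?_
    have h0 : ∀ l ∈ L, c l x = 0 := fun l hl => hc.off l x fun h => hx (hLS.sub l hl h)
    rw [sum_eq_zero h0, sum_eq_zero fun l hl => by rw [h0 l hl]; simp]
    simp
  rw [hPP] at h3
  have hw0 : ∀ X : {l // l ∈ L} → P, 0 ≤ ∏ i, d i (X i) := fun X =>
    prod_nonneg fun i _ => hc.nn _ _
  have hw1 : ∑ X ∈ Fintype.piFinset T, ∏ i, d i (X i) = 1 := by
    rw [← Finset.prod_univ_sum]
    exact prod_eq_one fun i _ => h1 i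
  set K : ({l // l ∈ L} → P) → ℝ := fun X =>
    ∑ x, (((univ.filter (fun i => X i = x)).card : ℝ) *
        (((univ.filter (fun i => X i = x)).card : ℝ) - 1)) with hK
  obtain ⟨X, hX, hX1, hX2⟩ : ∃ X ∈ Fintype.piFinset T, 0 < ∏ i, d i (X i) ∧ K X ≤ PP V L c := by
    by_contra hcon
    push Not at hcon
    have h4 : ∑ X ∈ Fintype.piFinset T, (∏ i, d i (X i)) * PP V L c <
        ∑ X ∈ Fintype.piFinset T, (∏ i, d i (X i)) * K X := by
      refine sum_lt_sum (fun X hX => ?_) ?_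
      · rcases (hw0 X).eq_or_lt with h | h
        · rw [← h]
          simp
        · exact mul_le_mul_of_nonneg_left (hcon X hX h).le h.le
      · obtain ⟨X, hX, hX0⟩ : ∃ X ∈ Fintype.piFinset T, 0 < ∏ i, d i (X i) := by
          by_contra hcon2
          push Not at hcon2
          have : ∑ X ∈ Fintype.piFinset T, ∏ i, d i (X i) ≤ 0 := sum_nonpos hcon2
          linarith
        exact ⟨X, hX, mul_lt_mul_of_pos_left (hcon X hX hX0) hX0⟩
    rw [← sum_mul, hw1, one_mul] at h4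
    rw [← h3] at h4
    exact lt_irrefl _ h4
  obtain ⟨f, hf⟩ : ∃ f : Finset P → P, ∀ (l : Finset P) (h : l ∈ L), f l = X ⟨l, h⟩ :=
    ⟨fun l => if h : l ∈ L then X ⟨l, h⟩ else p0, fun l h => dif_pos h⟩
  refine ⟨f, fun l hl => ?_, ?_⟩
  · rw [hf l hl]
    refine ⟨Fintype.mem_piFinset.1 hX ⟨l, hl⟩, fun h0 => ?_⟩
    exact hX1.ne' (prod_eq_zero (mem_univ (⟨l, hl⟩ : {l // l ∈ L})) h0)
  · refine le_trans (le_of_eq ?_) hX2
    have hN : ∀ x : P, NN L f x = (univ.filter (fun i => X i = x)).card := by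
      intro x
      unfold NN
      symm
      refine card_bij (fun i _ => i.1) ?_ ?_ ?_
      · intro i hi
        rw [mem_filter] at hi ⊢
        exact ⟨i.2, by rw [hf i.1 i.2]; exact hi.2⟩
      · intro i _ j _ hij
        exact Subtype.ext hij
      · intro l hl
        rw [mem_filter] at hl
        refine ⟨⟨l, hl.1⟩, ?_, rfl⟩
        rw [mem_filter]
        exact ⟨mem_univ _, by rw [← hf l hl.1]; exact hl.2⟩
    unfold coll
    rw [hK]
    simp only [hN]
    refine sum_subset (subset_univ V) fun x _ hx => ?_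
    have h0 : (univ.filter (fun i => X i = x)) = ∅ := by
      rw [filter_eq_empty_iff]
      intro i _ hi
      have := Fintype.mem_piFinset.1 hX i
      rw [hi] at this
      exact hx (hLS.sub i.1 i.2 this)
    rw [h0]
    simp

end Pool.Agent.Q154.PLPVERT
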